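import Mathlib

/-!
# Constant-sparsity SparseStack matrices are not oblivious subspace injections

For all constants `C₁, C₂` and `α > 0` and all large `r`, no SparseStack with at most `C₁` blocks
and at most `C₂ r` columns is an oblivious subspace injection with parameter `α` for
`r`-dimensional subspaces.
-/

namespace Pool.Agent.Results.MP_59a663_pr.NoConstantSparsity

open Finset Matrix

/-- The randomness of an `n × (ζ b)` SparseStack: for every row `i` and block `j` a position in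
`{1, …, b}` and a sign.  All outcomes are equally likely. -/
abbrev StackData (n ζ b : ℕ) : Type := (Fin n → Fin ζ → Fin b) × (Fin n → Fin ζ → Bool)

/-- The sign `± 1` encoded by a Boolean. -/
def sgn (t : Bool) : ℝ := if t then 1 else -1

/-- The SparseStack matrix: in row `i`, block `j` holds the single nonzero entry
`ϱ i j / √ζ` at position `s i j`.  Columns are indexed by (block, position in the block). -/
noncomputable def sparseStack {n ζ b : ℕ} (ω : StackData n ζ b) :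
    Matrix (Fin n) (Fin ζ × Fin b) ℝ :=
  fun i c => if ω.1 i c.1 = c.2 then sgn (ω.2 i c.1) / √(ζ : ℝ) else 0

/-- Injectivity on the subspace `V` with parameter `α`:
`α ‖x‖² ≤ ‖Ωᵀ x‖²` for all `x ∈ V` (Euclidean norms). -/
def InjectiveOn {n ζ b : ℕ} (ω : StackData n ζ b) (V : Submodule ℝ (Fin n → ℝ)) (α : ℝ) : Prop :=
  ∀ x ∈ V, α * (x ⬝ᵥ x) ≤ ((sparseStack ω)ᵀ *ᵥ x) ⬝ᵥ ((sparseStack ω)ᵀ *ᵥ x)

/-- The `n × (ζ b)` SparseStack is an oblivious subspace injection for `r`-dimensional subspaces,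
with parameter `α` and failure probability `δ`: for every fixed `r`-dimensional subspace `V`,
injectivity on `V` has probability at least `1 - δ`. (Isotropy always holds for a SparseStack and
is not needed here.) -/
def IsOSI (n ζ b r : ℕ) (α δ : ℝ) : Prop :=
  ∀ V : Submodule ℝ (Fin n → ℝ), Module.finrank ℝ V = r →
    1 - δ ≤ (Nat.card {ω : StackData n ζ b // InjectiveOn ω V α} : ℝ) /
      Nat.card (StackData n ζ b)

/-! ### Occupancy of positions by a group of rows -/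

section Occupancy

variable {b g : ℕ}

lemma card_avoid (S : Finset (Fin b)) :
    ((univ.filter fun φ : Fin g → Fin b => ∀ k, φ k ∉ S).card : ℝ) = ((b : ℝ) - S.card) ^ g := by
  have h : (univ.filter fun φ : Fin g → Fin b => ∀ k, φ k ∉ S) =
      Fintype.piFinset fun _ : Fin g => Sᶜ := by
    ext φ; simp [Fintype.mem_piFinset]
  rw [h, Fintype.card_piFinset]
  simp only [prod_const, card_univ, Fintype.card_fin, card_compl, Nat.cast_pow]
  congr 1
  have : S.card ≤ b := by simpa using S.card_le_univ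
  rw [Nat.cast_sub this]

/-- Number of maps whose range contains a given point. -/
noncomputable def N1 (b g : ℕ) : ℝ := (b : ℝ) ^ g - ((b : ℝ) - 1) ^ g

lemma card_hit_one (p : Fin b) :
    ((univ.filter fun φ : Fin g → Fin b => ∃ k, φ k = p).card : ℝ) = N1 b g := by
  have h1 := card_avoid (g := g) ({p} : Finset (Fin b))
  have h2 : (univ.filter fun φ : Fin g → Fin b => ∃ k, φ k = p).card +
      (univ.filter fun φ : Fin g → Fin b => ∀ k, φ k ∉ ({p} : Finset (Fin b))).card =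
      (univ : Finset (Fin g → Fin b)).card := by
    rw [← card_filter_add_card_filter_not (s := (univ : Finset (Fin g → Fin b)))
      (fun φ => ∃ k, φ k = p)]
    congr 2
    ext φ
    simp
  have h3 := congrArg (Nat.cast (R := ℝ)) h2
  push_cast at h3
  rw [h1] at h3
  simp only [card_univ, Fintype.card_fun, Fintype.card_fin, card_singleton, Nat.cast_one] at h3
  unfold N1
  push_cast at h3
  linarith

lemma card_hit_two (p p' : Fin b) (hpp : p ≠ p') :
    ((univ.filter fun φ : Fin g → Fin b => (∃ k, φ k = p) ∧ ∃ k, φ k = p').card : ℝ) *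
      (b : ℝ) ^ g ≤ N1 b g ^ 2 := by
  have hb : 2 ≤ b := by
    have h1 := p.2
    have h2 := p'.2
    have h3 : (p : ℕ) ≠ p' := fun h => hpp (Fin.ext h)
    omega
  have hb' : (2 : ℝ) ≤ b := by exact_mod_cast hb
  have e0 := card_avoid (g := g) (∅ : Finset (Fin b))
  have e1 := card_avoid (g := g) ({p} : Finset (Fin b))
  have e2 := card_avoid (g := g) ({p'} : Finset (Fin b))
  have e3 := card_avoid (g := g) ({p, p'} : Finset (Fin b))
  rw [card_pair hpp] at e3
  simp only [card_singleton, card_empty, Nat.cast_one, Nat.cast_zero, sub_zero,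
    Nat.cast_ofNat] at e0 e1 e2 e3
  have key : ((univ.filter fun φ : Fin g → Fin b => (∃ k, φ k = p) ∧ ∃ k, φ k = p').card : ℝ) =
      ((b : ℝ)) ^ g - ((b : ℝ) - 1) ^ g - ((b : ℝ) - 1) ^ g + ((b : ℝ) - 2) ^ g := by
    rw [← e0, ← e3]
    nth_rewrite 1 [← e1]
    rw [← e2]
    simp only [card_filter]
    push_cast
    rw [← sum_sub_distrib, ← sum_sub_distrib, ← sum_add_distrib]
    refine sum_congr rfl fun φ _ => ?_
    by_cases h1 : ∃ k, φ k = p
    · by_cases h2 : ∃ k, φ k = p'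
      · obtain ⟨k1, hk1⟩ := h1
        obtain ⟨k2, hk2⟩ := h2
        have a1 : ¬ ∀ k, φ k ∉ ({p} : Finset (Fin b)) := fun h => h k1 (by simp [hk1])
        have a2 : ¬ ∀ k, φ k ∉ ({p'} : Finset (Fin b)) := fun h => h k2 (by simp [hk2])
        have a3 : ¬ ∀ k, φ k ∉ ({p, p'} : Finset (Fin b)) := fun h => h k1 (by simp [hk1])
        have a4 : (∃ k, φ k = p) ∧ ∃ k, φ k = p' := ⟨⟨k1, hk1⟩, ⟨k2, hk2⟩⟩
        rw [if_neg a1, if_neg a2, if_neg a3, if_pos a4]
        simp
      · obtain ⟨k1, hk1⟩ := h1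
        have a1 : ¬ ∀ k, φ k ∉ ({p} : Finset (Fin b)) := fun h => h k1 (by simp [hk1])
        have a2 : ∀ k, φ k ∉ ({p'} : Finset (Fin b)) := fun k => by
          simp only [mem_singleton]; exact fun h => h2 ⟨k, h⟩
        have a3 : ¬ ∀ k, φ k ∉ ({p, p'} : Finset (Fin b)) := fun h => h k1 (by simp [hk1])
        have a4 : ¬ ((∃ k, φ k = p) ∧ ∃ k, φ k = p') := fun h => h2 h.2
        rw [if_neg a1, if_pos a2, if_neg a3, if_neg a4]
        simp
    · by_cases h2 : ∃ k, φ k = p'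
      · obtain ⟨k2, hk2⟩ := h2
        have a1 : ∀ k, φ k ∉ ({p} : Finset (Fin b)) := fun k => by
          simp only [mem_singleton]; exact fun h => h1 ⟨k, h⟩
        have a2 : ¬ ∀ k, φ k ∉ ({p'} : Finset (Fin b)) := fun h => h k2 (by simp [hk2])
        have a3 : ¬ ∀ k, φ k ∉ ({p, p'} : Finset (Fin b)) := fun h => h k2 (by simp [hk2])
        have a4 : ¬ ((∃ k, φ k = p) ∧ ∃ k, φ k = p') := fun h => h1 h.1
        rw [if_pos a1, if_neg a2, if_neg a3, if_neg a4]
        simp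
      · have a1 : ∀ k, φ k ∉ ({p} : Finset (Fin b)) := fun k => by
          simp only [mem_singleton]; exact fun h => h1 ⟨k, h⟩
        have a2 : ∀ k, φ k ∉ ({p'} : Finset (Fin b)) := fun k => by
          simp only [mem_singleton]; exact fun h => h2 ⟨k, h⟩
        have a3 : ∀ k, φ k ∉ ({p, p'} : Finset (Fin b)) := fun k => by
          simp only [mem_insert, mem_singleton, not_or]
          exact ⟨fun h => h1 ⟨k, h⟩, fun h => h2 ⟨k, h⟩⟩
        have a4 : ¬ ((∃ k, φ k = p) ∧ ∃ k, φ k = p') := fun h => h1 h.1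
        rw [if_pos a1, if_pos a2, if_pos a3, if_neg a4]
        simp
  rw [key]
  unfold N1
  have h5 : ((b : ℝ) - 2) ^ g * (b : ℝ) ^ g ≤ (((b : ℝ) - 1) ^ g) ^ 2 := by
    rw [← mul_pow, ← pow_mul, mul_comm g 2, pow_mul]
    exact pow_le_pow_left₀ (mul_nonneg (by linarith) (by linarith)) (by nlinarith) g
  nlinarith

end Occupancy

/-! ### Candidate tuples hit by all groups -/

section Tuples

variable {b g ζ D m : ℕ}

/-- The positions of the helper rows: group `(j, d)` has `g` rows, with positions in block `j`. -/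
abbrev Helpers (b g ζ D : ℕ) : Type := Fin ζ × Fin D → Fin g → Fin b

/-- The tuple `p` of positions is hit by all the groups. -/
def Hit (w : Helpers b g ζ D) (p : Fin ζ → Fin b) : Prop := ∀ jd, ∃ k, w jd k = p jd.1

instance (w : Helpers b g ζ D) (p : Fin ζ → Fin b) : Decidable (Hit w p) :=
  inferInstanceAs (Decidable (∀ jd, ∃ k, w jd k = p jd.1))

lemma card_hit (p : Fin ζ → Fin b) :
    ((univ.filter fun w : Helpers b g ζ D => Hit w p).card : ℝ) = N1 b g ^ (ζ * D) := by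
  have h : (univ.filter fun w : Helpers b g ζ D => Hit w p) =
      Fintype.piFinset fun jd : Fin ζ × Fin D => univ.filter fun φ : Fin g → Fin b =>
        ∃ k, φ k = p jd.1 := by
    ext w; simp [Fintype.mem_piFinset, Hit]
  rw [h, Fintype.card_piFinset]
  push_cast
  simp_rw [card_hit_one]
  simp

lemma card_hit_pair (p p' : Fin ζ → Fin b) (hpp : ∀ j, p j ≠ p' j) :
    ((univ.filter fun w : Helpers b g ζ D => Hit w p ∧ Hit w p').card : ℝ) *
      ((b : ℝ) ^ g) ^ (ζ * D) ≤ (N1 b g ^ 2) ^ (ζ * D) := by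
  have h : (univ.filter fun w : Helpers b g ζ D => Hit w p ∧ Hit w p') =
      Fintype.piFinset fun jd : Fin ζ × Fin D => univ.filter fun φ : Fin g → Fin b =>
        (∃ k, φ k = p jd.1) ∧ ∃ k, φ k = p' jd.1 := by
    ext w
    simp only [mem_filter, mem_univ, true_and, Fintype.mem_piFinset]
    exact ⟨fun h jd => ⟨h.1 jd, h.2 jd⟩, fun h => ⟨fun jd => (h jd).1, fun jd => (h jd).2⟩⟩
  rw [h, Fintype.card_piFinset]
  push_cast
  have hc : ζ * D = (univ : Finset (Fin ζ × Fin D)).card := by simp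
  rw [hc, ← prod_const, ← prod_const, ← prod_mul_distrib]
  exact prod_le_prod (fun _ _ => by positivity) fun jd _ => card_hit_two _ _ (hpp _)

/-- The number of tuples hit by `w`. -/
def T (w : Helpers b g ζ D) : ℕ := (univ.filter fun p : Fin ζ → Fin b => Hit w p).card

lemma sum_T : ∑ w : Helpers b g ζ D, (T w : ℝ) = (b : ℝ) ^ ζ * N1 b g ^ (ζ * D) := by
  calc ∑ w : Helpers b g ζ D, (T w : ℝ)
      = ∑ w : Helpers b g ζ D, ∑ p : Fin ζ → Fin b, if Hit w p then (1 : ℝ) else 0 := by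
        refine sum_congr rfl fun w _ => ?_
        rw [T, card_filter]; push_cast; rfl
    _ = ∑ p : Fin ζ → Fin b, ∑ w : Helpers b g ζ D, if Hit w p then (1 : ℝ) else 0 := sum_comm
    _ = ∑ p : Fin ζ → Fin b, N1 b g ^ (ζ * D) := by
        refine sum_congr rfl fun p _ => ?_
        rw [← card_hit p, card_filter]; push_cast; rfl
    _ = _ := by simp

lemma card_coincide (hb : 0 < b) :
    ((univ.filter fun pp : (Fin ζ → Fin b) × (Fin ζ → Fin b) => ∃ j, pp.1 j = pp.2 j).card : ℝ) ≤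
      ζ * ((b : ℝ) ^ ζ * (b : ℝ) ^ ζ / b) := by
  have hb' : (0 : ℝ) < b := by exact_mod_cast hb
  have h1 : (univ.filter fun pp : (Fin ζ → Fin b) × (Fin ζ → Fin b) => ∃ j, pp.1 j = pp.2 j) ⊆
      univ.biUnion fun j : Fin ζ =>
        univ.filter fun pp : (Fin ζ → Fin b) × (Fin ζ → Fin b) => pp.1 j = pp.2 j := by
    intro pp; simp
  have h2 : ∀ j : Fin ζ,
      ((univ.filter fun pp : (Fin ζ → Fin b) × (Fin ζ → Fin b) => pp.1 j = pp.2 j).card : ℝ) =
      (b : ℝ) ^ ζ * (b : ℝ) ^ ζ / b := by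
    intro j
    have h3 : ∀ p : Fin ζ → Fin b,
        ((univ.filter fun p' : Fin ζ → Fin b => p j = p' j).card : ℝ) = (b : ℝ) ^ ζ / b := by
      intro p
      have h4 : (univ.filter fun p' : Fin ζ → Fin b => p j = p' j) =
          Fintype.piFinset fun j' : Fin ζ => if j' = j then {p j} else univ := by
        ext p'
        simp only [mem_filter, mem_univ, true_and, Fintype.mem_piFinset]
        constructor
        · intro h j'
          split_ifs with hj
          · subst hj; simp [h]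
          · simp
        · intro h
          have := h j
          simp at this
          exact this.symm
      rw [h4, Fintype.card_piFinset]
      push_cast
      rw [eq_div_iff hb'.ne', ← mul_prod_erase univ _ (mem_univ j)]
      simp only [if_true, card_singleton, Nat.cast_one, one_mul]
      have h5 : ∏ x ∈ univ.erase j, (((if x = j then {p j} else univ : Finset (Fin b)).card : ℕ) : ℝ)
          = ∏ x ∈ univ.erase j, (b : ℝ) := by
        refine prod_congr rfl fun x hx => ?_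
        rw [if_neg (ne_of_mem_erase hx)]
        simp
      rw [h5, prod_const, card_erase_of_mem (mem_univ j), card_univ, Fintype.card_fin, ← pow_succ]
      congr 1
      have := j.2
      omega
    rw [card_filter]
    push_cast
    rw [Fintype.sum_prod_type]
    calc ∑ p : Fin ζ → Fin b, ∑ p' : Fin ζ → Fin b, (if p j = p' j then (1 : ℝ) else 0)
        = ∑ p : Fin ζ → Fin b, (b : ℝ) ^ ζ / b := by
          refine sum_congr rfl fun p _ => ?_
          rw [← h3 p, card_filter]; push_cast; rfl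
      _ = _ := by simp; ring
  calc _ ≤ ((univ.biUnion fun j : Fin ζ =>
        univ.filter fun pp : (Fin ζ → Fin b) × (Fin ζ → Fin b) => pp.1 j = pp.2 j).card : ℝ) := by
        exact_mod_cast card_le_card h1
    _ ≤ ∑ j : Fin ζ,
        ((univ.filter fun pp : (Fin ζ → Fin b) × (Fin ζ → Fin b) => pp.1 j = pp.2 j).card : ℝ) := by
        exact_mod_cast card_biUnion_le
    _ = _ := by rw [sum_congr rfl fun j _ => h2 j]; simp

/-- The probability that a fixed tuple is hit. -/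
noncomputable def hh (b g ζ D : ℕ) : ℝ := (N1 b g / (b : ℝ) ^ g) ^ (ζ * D)

lemma card_helpers : (Fintype.card (Helpers b g ζ D) : ℝ) = ((b : ℝ) ^ g) ^ (ζ * D) := by
  simp

lemma sum_T_sq (hb : 0 < b) : ∑ w : Helpers b g ζ D, (T w : ℝ) ^ 2 ≤
    Fintype.card (Helpers b g ζ D) *
      ((b : ℝ) ^ ζ * (b : ℝ) ^ ζ * (hh b g ζ D ^ 2 + ζ / b)) := by
  have hb' : (0 : ℝ) < b := by exact_mod_cast hb
  have hW : (0 : ℝ) < ((b : ℝ) ^ g) ^ (ζ * D) := by positivity
  have hpair : ∀ pp : (Fin ζ → Fin b) × (Fin ζ → Fin b),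
      ((univ.filter fun w : Helpers b g ζ D => Hit w pp.1 ∧ Hit w pp.2).card : ℝ) ≤
      Fintype.card (Helpers b g ζ D) * hh b g ζ D ^ 2 +
        Fintype.card (Helpers b g ζ D) * (if ∃ j, pp.1 j = pp.2 j then 1 else 0) := by
    intro pp
    by_cases hc : ∃ j, pp.1 j = pp.2 j
    · rw [if_pos hc, mul_one]
      have h1 : ((univ.filter fun w : Helpers b g ζ D => Hit w pp.1 ∧ Hit w pp.2).card : ℝ) ≤
          Fintype.card (Helpers b g ζ D) := by exact_mod_cast card_le_univ _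
      have h2 : 0 ≤ (Fintype.card (Helpers b g ζ D) : ℝ) * hh b g ζ D ^ 2 := by positivity
      linarith
    · rw [if_neg hc, mul_zero, add_zero]
      push Not at hc
      have h1 := card_hit_pair (g := g) (D := D) pp.1 pp.2 hc
      rw [← le_div_iff₀ hW] at h1
      refine h1.trans (le_of_eq ?_)
      rw [card_helpers, hh, div_pow, ← pow_mul, ← pow_mul]
      field_simp
      ring
  calc ∑ w : Helpers b g ζ D, (T w : ℝ) ^ 2
      = ∑ w : Helpers b g ζ D, ∑ pp : (Fin ζ → Fin b) × (Fin ζ → Fin b),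
          if Hit w pp.1 ∧ Hit w pp.2 then (1 : ℝ) else 0 := by
        refine sum_congr rfl fun w _ => ?_
        have : (T w : ℝ) = ∑ p : Fin ζ → Fin b, if Hit w p then (1 : ℝ) else 0 := by
          rw [T, card_filter]; push_cast; rfl
        rw [sq, this, sum_mul_sum, Fintype.sum_prod_type]
        refine sum_congr rfl fun p _ => sum_congr rfl fun p' _ => ?_
        by_cases h1 : Hit w p <;> by_cases h2 : Hit w p' <;> simp [h1, h2]
    _ = ∑ pp : (Fin ζ → Fin b) × (Fin ζ → Fin b), ∑ w : Helpers b g ζ D,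
          if Hit w pp.1 ∧ Hit w pp.2 then (1 : ℝ) else 0 := sum_comm
    _ = ∑ pp : (Fin ζ → Fin b) × (Fin ζ → Fin b),
          ((univ.filter fun w : Helpers b g ζ D => Hit w pp.1 ∧ Hit w pp.2).card : ℝ) := by
        refine sum_congr rfl fun pp _ => ?_
        rw [card_filter]; push_cast; rfl
    _ ≤ ∑ pp : (Fin ζ → Fin b) × (Fin ζ → Fin b),
          (Fintype.card (Helpers b g ζ D) * hh b g ζ D ^ 2 +
        Fintype.card (Helpers b g ζ D) * (if ∃ j, pp.1 j = pp.2 j then (1 : ℝ) else 0)) :=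
        sum_le_sum fun pp _ => hpair pp
    _ = (b : ℝ) ^ ζ * (b : ℝ) ^ ζ * (Fintype.card (Helpers b g ζ D) * hh b g ζ D ^ 2) +
        Fintype.card (Helpers b g ζ D) *
        ((univ.filter fun pp : (Fin ζ → Fin b) × (Fin ζ → Fin b) =>
          ∃ j, pp.1 j = pp.2 j).card : ℝ) := by
        rw [sum_add_distrib]
        congr 1
        · simp
        · rw [← mul_sum, card_filter]; push_cast; rfl
    _ ≤ (b : ℝ) ^ ζ * (b : ℝ) ^ ζ * (Fintype.card (Helpers b g ζ D) * hh b g ζ D ^ 2) +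
        Fintype.card (Helpers b g ζ D) * (ζ * ((b : ℝ) ^ ζ * (b : ℝ) ^ ζ / b)) := by
        refine add_le_add le_rfl (mul_le_mul_of_nonneg_left (card_coincide hb) (by positivity))
    _ = _ := by ring

/-- Chebyshev: few `w` hit less than half of the expected number of tuples. -/
lemma chebyshev (hb : 0 < b) (hpos : 0 < hh b g ζ D) :
    ((univ.filter fun w : Helpers b g ζ D =>
      (T w : ℝ) < hh b g ζ D / 2 * (b : ℝ) ^ ζ).card : ℝ) ≤
    Fintype.card (Helpers b g ζ D) * (4 * ζ / (b * hh b g ζ D ^ 2)) := by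
  have hb' : (0 : ℝ) < b := by exact_mod_cast hb
  set h := hh b g ζ D with hdef
  set W := (Fintype.card (Helpers b g ζ D) : ℝ) with hW
  have hbz : (0 : ℝ) < (b : ℝ) ^ ζ := by positivity
  have hmean : ∑ w : Helpers b g ζ D, (T w : ℝ) = W * ((b : ℝ) ^ ζ * h) := by
    rw [sum_T, hW, card_helpers, hdef, hh, div_pow]
    field_simp
  have hvar : ∑ w : Helpers b g ζ D, ((T w : ℝ) - h * (b : ℝ) ^ ζ) ^ 2 ≤
      W * ((b : ℝ) ^ ζ * (b : ℝ) ^ ζ * (ζ / b)) := by
    have h1 := sum_T_sq (b := b) (g := g) (ζ := ζ) (D := D) hb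
    have h2 : ∑ w : Helpers b g ζ D, ((T w : ℝ) - h * (b : ℝ) ^ ζ) ^ 2 =
        ∑ w : Helpers b g ζ D, (T w : ℝ) ^ 2 -
          2 * (h * (b : ℝ) ^ ζ) * ∑ w : Helpers b g ζ D, (T w : ℝ) +
          W * (h * (b : ℝ) ^ ζ) ^ 2 := by
      rw [mul_sum, ← sum_sub_distrib]
      have h3 : W * (h * (b : ℝ) ^ ζ) ^ 2 = ∑ w : Helpers b g ζ D, (h * (b : ℝ) ^ ζ) ^ 2 := by
        simp [hW]
      rw [h3, ← sum_add_distrib]
      exact sum_congr rfl fun w _ => by ring
    rw [h2, hmean]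
    nlinarith
  have hlow : ((univ.filter fun w : Helpers b g ζ D =>
      (T w : ℝ) < h / 2 * (b : ℝ) ^ ζ).card : ℝ) * (h / 2 * (b : ℝ) ^ ζ) ^ 2 ≤
      ∑ w : Helpers b g ζ D, ((T w : ℝ) - h * (b : ℝ) ^ ζ) ^ 2 := by
    rw [card_filter]
    push_cast
    rw [sum_mul]
    refine sum_le_sum fun w _ => ?_
    split_ifs with hw
    · rw [one_mul]
      have h4 : 0 ≤ h / 2 * (b : ℝ) ^ ζ := by positivity
      nlinarith
    · rw [zero_mul]; positivity
  have h5 := hlow.trans hvar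
  have h6 : 0 < (h / 2 * (b : ℝ) ^ ζ) ^ 2 := by positivity
  rw [← le_div_iff₀ h6] at h5
  refine h5.trans (le_of_eq ?_)
  field_simp
  norm_num

/-- Helpers and candidates: the proportion of outcomes in which no candidate is hit. -/
lemma card_no_hit (hb : 0 < b) (hpos : 0 < hh b g ζ D) (hle : hh b g ζ D ≤ 1) :
    ((univ.filter fun wp : Helpers b g ζ D × (Fin m → Fin ζ → Fin b) =>
      ∀ i, ¬ Hit wp.1 (wp.2 i)).card : ℝ) ≤
    Fintype.card (Helpers b g ζ D × (Fin m → Fin ζ → Fin b)) *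
      (4 * ζ / (b * hh b g ζ D ^ 2) + (1 - hh b g ζ D / 2) ^ m) := by
  have hb' : (0 : ℝ) < b := by exact_mod_cast hb
  set h := hh b g ζ D with hdef
  have hbz : (0 : ℝ) < (b : ℝ) ^ ζ := by positivity
  have hfix : ∀ w : Helpers b g ζ D,
      ((univ.filter fun P : Fin m → Fin ζ → Fin b => ∀ i, ¬ Hit w (P i)).card : ℝ) =
      ((b : ℝ) ^ ζ - T w) ^ m := by
    intro w
    have h1 : (univ.filter fun P : Fin m → Fin ζ → Fin b => ∀ i, ¬ Hit w (P i)) =
        Fintype.piFinset fun _ : Fin m => univ.filter fun p : Fin ζ → Fin b => ¬ Hit w p := by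
      ext P; simp [Fintype.mem_piFinset]
    have h2 : ((univ.filter fun p : Fin ζ → Fin b => ¬ Hit w p).card : ℝ) = (b : ℝ) ^ ζ - T w := by
      have h3 : (univ.filter fun p : Fin ζ → Fin b => Hit w p).card +
          (univ.filter fun p : Fin ζ → Fin b => ¬ Hit w p).card =
          (univ : Finset (Fin ζ → Fin b)).card := by
        rw [← card_filter_add_card_filter_not (s := (univ : Finset (Fin ζ → Fin b)))
          (fun p => Hit w p)]
      have h4 := congrArg (Nat.cast (R := ℝ)) h3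
      push_cast at h4
      simp only [card_univ, Fintype.card_fun, Fintype.card_fin] at h4
      unfold T
      push_cast at h4
      linarith
    rw [h1, Fintype.card_piFinset]
    push_cast
    rw [h2]
    simp
  have hterm : ∀ w : Helpers b g ζ D, ((b : ℝ) ^ ζ - T w) ^ m ≤
      ((b : ℝ) ^ ζ) ^ m * (if (T w : ℝ) < h / 2 * (b : ℝ) ^ ζ then 1 else 0) +
        ((b : ℝ) ^ ζ) ^ m * (1 - h / 2) ^ m := by
    intro w
    have hT : (T w : ℝ) ≤ (b : ℝ) ^ ζ := by
      have : T w ≤ Fintype.card (Fin ζ → Fin b) := card_le_univ _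
      simp only [Fintype.card_fun, Fintype.card_fin] at this
      exact_mod_cast this
    have hT0 : (0 : ℝ) ≤ T w := Nat.cast_nonneg _
    have hp : 0 ≤ ((b : ℝ) ^ ζ) ^ m * (1 - h / 2) ^ m :=
      mul_nonneg (by positivity) (pow_nonneg (by linarith) _)
    split_ifs with hc
    · rw [mul_one]
      have : ((b : ℝ) ^ ζ - T w) ^ m ≤ ((b : ℝ) ^ ζ) ^ m :=
        pow_le_pow_left₀ (by linarith) (by linarith) m
      linarith
    · rw [mul_zero, zero_add, ← mul_pow]
      refine pow_le_pow_left₀ (by linarith) ?_ m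
      rw [not_lt] at hc
      nlinarith
  have hcheb := chebyshev (b := b) (g := g) (ζ := ζ) (D := D) hb hpos
  rw [← hdef] at hcheb
  calc ((univ.filter fun wp : Helpers b g ζ D × (Fin m → Fin ζ → Fin b) =>
      ∀ i, ¬ Hit wp.1 (wp.2 i)).card : ℝ)
      = ∑ w : Helpers b g ζ D, ((b : ℝ) ^ ζ - T w) ^ m := by
        rw [card_filter]
        push_cast
        rw [Fintype.sum_prod_type]
        refine sum_congr rfl fun w _ => ?_
        rw [← hfix w, card_filter]
        push_cast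
        rfl
    _ ≤ ∑ w : Helpers b g ζ D,
        (((b : ℝ) ^ ζ) ^ m * (if (T w : ℝ) < h / 2 * (b : ℝ) ^ ζ then (1 : ℝ) else 0) +
        ((b : ℝ) ^ ζ) ^ m * (1 - h / 2) ^ m) := sum_le_sum fun w _ => hterm w
    _ = ((b : ℝ) ^ ζ) ^ m * ((univ.filter fun w : Helpers b g ζ D =>
      (T w : ℝ) < h / 2 * (b : ℝ) ^ ζ).card : ℝ) +
        Fintype.card (Helpers b g ζ D) * (((b : ℝ) ^ ζ) ^ m * (1 - h / 2) ^ m) := by
        rw [sum_add_distrib, ← mul_sum, card_filter]
        push_cast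
        congr 1
        simp
    _ ≤ ((b : ℝ) ^ ζ) ^ m * (Fintype.card (Helpers b g ζ D) * (4 * ζ / (b * h ^ 2))) +
        Fintype.card (Helpers b g ζ D) * (((b : ℝ) ^ ζ) ^ m * (1 - h / 2) ^ m) := by
        refine add_le_add (mul_le_mul_of_nonneg_left hcheb (by positivity)) le_rfl
    _ = Fintype.card (Helpers b g ζ D × (Fin m → Fin ζ → Fin b)) *
      (4 * ζ / (b * h ^ 2) + (1 - h / 2) ^ m) := by
        rw [Fintype.card_prod]
        push_cast
        have : (Fintype.card (Fin m → Fin ζ → Fin b) : ℝ) = ((b : ℝ) ^ ζ) ^ m := by simp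
        rw [this]
        ring

end Tuples

/-! ### Restricting a uniform random map to some of its coordinates -/

section Restrict

lemma card_restrict {C C' β : Type} [Fintype C] [Fintype C'] [Fintype β] [DecidableEq C]
    [DecidableEq C'] (e : C' → C) (he : Function.Injective e) (U : (C' → β) → Prop) :
    (Nat.card {f : C → β // U (f ∘ e)} : ℝ) * Nat.card (C' → β) =
      Nat.card {u : C' → β // U u} * Nat.card (C → β) := by
  classical
  let E1 : (C → β) ≃ ({c // c ∈ Set.range e} → β) × ({c // c ∉ Set.range e} → β) :=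
    Equiv.piEquivPiSubtypeProd (fun c => c ∈ Set.range e) fun _ => β
  let E2 : ({c // c ∈ Set.range e} → β) ≃ (C' → β) :=
    (Equiv.arrowCongr (Equiv.ofInjective e he).symm (Equiv.refl β))
  let E3 : (C → β) ≃ (C' → β) × ({c // c ∉ Set.range e} → β) :=
    E1.trans (Equiv.prodCongr E2 (Equiv.refl _))
  have hE3 : ∀ f, (E3 f).1 = f ∘ e := by
    intro f
    funext c
    rfl
  have h1 : Nat.card {f : C → β // U (f ∘ e)} =
      Nat.card {u : C' → β // U u} * Nat.card ({c // c ∉ Set.range e} → β) := by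
    rw [← Nat.card_prod]
    refine Nat.card_congr ?_
    refine (E3.subtypeEquiv (p := fun f => U (f ∘ e)) (q := fun x => U x.1) fun f => by
      rw [hE3]).trans ?_
    exact {
      toFun := fun x => (⟨x.1.1, x.2⟩, x.1.2)
      invFun := fun x => ⟨(x.1.1, x.2), x.1.2⟩
      left_inv := fun x => rfl
      right_inv := fun x => rfl }
  have h2 : Nat.card (C → β) = Nat.card (C' → β) * Nat.card ({c // c ∉ Set.range e} → β) := by
    rw [← Nat.card_prod]
    exact Nat.card_congr E3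
  rw [h1, h2]
  push_cast
  ring

end Restrict

/-! ### The test vector -/

section Vector

variable {n ζ b D : ℕ}

lemma sgn_sq (t : Bool) : sgn t * sgn t = 1 := by cases t <;> norm_num [sgn]

lemma sgn_not (t : Bool) : sgn (!t) = -sgn t := by cases t <;> norm_num [sgn]

/-- Flip one sign. -/
def flip (c : Fin n × Fin ζ) (ϱ : Fin n → Fin ζ → Bool) : Fin n → Fin ζ → Bool := fun l j =>
  if (l, j) = c then !(ϱ l j) else ϱ l j

/-- Flipping as a bijection. -/
def flipEquiv (c : Fin n × Fin ζ) : (Fin n → Fin ζ → Bool) ≃ (Fin n → Fin ζ → Bool) where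
  toFun := flip c
  invFun := flip c
  left_inv ϱ := by funext l j; unfold flip; split_ifs <;> simp
  right_inv ϱ := by funext l j; unfold flip; split_ifs <;> simp

/-- The sign attached to the helper `(j, d)` in block `j'`. -/
def tau (i₀ : Fin n) (K : Fin ζ × Fin D → Fin n) (ϱ : Fin n → Fin ζ → Bool) (jd : Fin ζ × Fin D)
    (j' : Fin ζ) : ℝ := sgn (ϱ i₀ jd.1) * sgn (ϱ (K jd) jd.1) * sgn (ϱ (K jd) j')

lemma tau_sq (i₀ : Fin n) (K : Fin ζ × Fin D → Fin n) (ϱ : Fin n → Fin ζ → Bool)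
    (jd : Fin ζ × Fin D) (j' : Fin ζ) : tau i₀ K ϱ jd j' * tau i₀ K ϱ jd j' = 1 := by
  unfold tau
  have h1 := sgn_sq (ϱ i₀ jd.1)
  have h2 := sgn_sq (ϱ (K jd) jd.1)
  have h3 := sgn_sq (ϱ (K jd) j')
  calc _ = (sgn (ϱ i₀ jd.1) * sgn (ϱ i₀ jd.1)) * (sgn (ϱ (K jd) jd.1) * sgn (ϱ (K jd) jd.1)) *
      (sgn (ϱ (K jd) j') * sgn (ϱ (K jd) j')) := by ring
    _ = 1 := by rw [h1, h2, h3]; norm_num

lemma sum_tau (i₀ : Fin n) (K : Fin ζ × Fin D → Fin n) (hK : Function.Injective K)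
    (hi : ∀ jd, K jd ≠ i₀) (j' : Fin ζ) (a c : Fin ζ × Fin D) (ha : a.1 ≠ j') (hac : a ≠ c) :
    ∑ ϱ : Fin n → Fin ζ → Bool, tau i₀ K ϱ a j' * tau i₀ K ϱ c j' = 0 := by
  have h : ∑ ϱ : Fin n → Fin ζ → Bool, tau i₀ K ϱ a j' * tau i₀ K ϱ c j' =
      ∑ ϱ : Fin n → Fin ζ → Bool, -(tau i₀ K ϱ a j' * tau i₀ K ϱ c j') := by
    rw [← (flipEquiv (K a, j')).sum_comp]
    refine sum_congr rfl fun ϱ _ => ?_
    have hKac : K c ≠ K a := fun h => hac (hK h).symm
    have e1 : flip (K a, j') ϱ i₀ a.1 = ϱ i₀ a.1 := by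
      unfold flip; rw [if_neg]; intro h; exact hi a (congrArg Prod.fst h).symm
    have e2 : flip (K a, j') ϱ (K a) a.1 = ϱ (K a) a.1 := by
      unfold flip; rw [if_neg]; intro h; exact ha (congrArg Prod.snd h)
    have e3 : flip (K a, j') ϱ (K a) j' = !(ϱ (K a) j') := by
      unfold flip; rw [if_pos rfl]
    have e4 : flip (K a, j') ϱ i₀ c.1 = ϱ i₀ c.1 := by
      unfold flip; rw [if_neg]; intro h; exact hi a (congrArg Prod.fst h).symm
    have e5 : flip (K a, j') ϱ (K c) c.1 = ϱ (K c) c.1 := by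
      unfold flip; rw [if_neg]; intro h; exact hKac (congrArg Prod.fst h)
    have e6 : flip (K a, j') ϱ (K c) j' = ϱ (K c) j' := by
      unfold flip; rw [if_neg]; intro h; exact hKac (congrArg Prod.fst h)
    change tau i₀ K (flip (K a, j') ϱ) a j' * tau i₀ K (flip (K a, j') ϱ) c j' = _
    unfold tau
    rw [e1, e2, e3, e4, e5, e6, sgn_not]
    ring
  rw [sum_neg_distrib] at h
  linarith

/-- The test vector. -/
noncomputable def tv (i₀ : Fin n) (K : Fin ζ × Fin D → Fin n) (ϱ : Fin n → Fin ζ → Bool) :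
    Fin n → ℝ := fun l =>
  (if l = i₀ then 1 else 0) -
    ∑ jd : Fin ζ × Fin D, if l = K jd then sgn (ϱ i₀ jd.1) * sgn (ϱ (K jd) jd.1) / D else 0

/-- The image of the test vector. -/
lemma mulVec_tv (hD : 0 < D) (s : Fin n → Fin ζ → Fin b) (ϱ : Fin n → Fin ζ → Bool) (i₀ : Fin n)
    (K : Fin ζ × Fin D → Fin n) (hs : ∀ jd, s (K jd) jd.1 = s i₀ jd.1) (c : Fin ζ × Fin b) :
    ((sparseStack (s, ϱ))ᵀ *ᵥ tv i₀ K ϱ) c = -(1 / (√(ζ : ℝ) * D)) *
      ∑ jd : Fin ζ × Fin D, if jd.1 ≠ c.1 ∧ s (K jd) c.1 = c.2 then tau i₀ K ϱ jd c.1 else 0 := by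
  have hD' : (D : ℝ) ≠ 0 := by exact_mod_cast hD.ne'
  have hent : ∀ l : Fin n, sparseStack (s, ϱ) l c = if s l c.1 = c.2 then
      sgn (ϱ l c.1) / √(ζ : ℝ) else 0 := fun l => rfl
  have h1 : ((sparseStack (s, ϱ))ᵀ *ᵥ tv i₀ K ϱ) c = sparseStack (s, ϱ) i₀ c -
      ∑ jd : Fin ζ × Fin D, sparseStack (s, ϱ) (K jd) c *
        (sgn (ϱ i₀ jd.1) * sgn (ϱ (K jd) jd.1) / D) := by
    simp only [Matrix.mulVec, dotProduct, Matrix.transpose_apply, tv, mul_sub, sum_sub_distrib]
    congr 1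
    · simp
    · simp_rw [mul_sum]
      rw [sum_comm]
      refine sum_congr rfl fun jd _ => ?_
      simp
  rw [h1]
  -- the helpers of block `c.1` cancel the entry of row `i₀`
  have h2 : sparseStack (s, ϱ) i₀ c = ∑ jd : Fin ζ × Fin D,
      if jd.1 = c.1 then sparseStack (s, ϱ) i₀ c / D else 0 := by
    rw [Fintype.sum_prod_type, sum_eq_single c.1]
    · simp only [if_true, sum_const, card_univ, Fintype.card_fin, nsmul_eq_mul]
      field_simp
    · intro j _ hj
      simp [hj]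
    · simp
  rw [h2, ← sum_sub_distrib, mul_sum]
  refine sum_congr rfl fun jd _ => ?_
  rw [hent, hent]
  by_cases hj : jd.1 = c.1
  · have hs' : s (K jd) c.1 = s i₀ c.1 := by rw [← hj]; exact hs jd
    have hneg : ¬ (jd.1 ≠ c.1 ∧ s (K jd) c.1 = c.2) := fun h => h.1 hj
    rw [if_pos hj, if_neg hneg, hs', mul_zero, hj]
    by_cases hp : s i₀ c.1 = c.2
    · rw [if_pos hp, if_pos hp]
      have := sgn_sq (ϱ (K jd) c.1)
      have h3 : sgn (ϱ (K jd) c.1) / √(ζ : ℝ) * (sgn (ϱ i₀ c.1) * sgn (ϱ (K jd) c.1) / D) =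
          (sgn (ϱ (K jd) c.1) * sgn (ϱ (K jd) c.1)) * (sgn (ϱ i₀ c.1) / √(ζ : ℝ) / D) := by ring
      rw [h3, this]
      ring
    · rw [if_neg hp, if_neg hp]; ring
  · rw [if_neg hj]
    by_cases hp : s (K jd) c.1 = c.2
    · rw [if_pos hp, if_pos ⟨hj, hp⟩]
      unfold tau
      field_simp
      ring
    · rw [if_neg hp, if_neg (fun h => hp h.2)]
      ring

/-- The mean over the signs of the squared norm of the image of the test vector. -/
lemma sum_norm (hD : 0 < D) (hζ : 0 < ζ) (s : Fin n → Fin ζ → Fin b) (i₀ : Fin n)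
    (K : Fin ζ × Fin D → Fin n) (hK : Function.Injective K) (hi : ∀ jd, K jd ≠ i₀)
    (hs : ∀ jd, s (K jd) jd.1 = s i₀ jd.1) :
    ∑ ϱ : Fin n → Fin ζ → Bool,
      ((sparseStack (s, ϱ))ᵀ *ᵥ tv i₀ K ϱ) ⬝ᵥ ((sparseStack (s, ϱ))ᵀ *ᵥ tv i₀ K ϱ) ≤
    Fintype.card (Fin n → Fin ζ → Bool) * ((ζ : ℝ) / D) := by
  have hD' : (0 : ℝ) < D := by exact_mod_cast hD
  have hζ' : (0 : ℝ) < ζ := by exact_mod_cast hζ
  set S := (Fintype.card (Fin n → Fin ζ → Bool) : ℝ) with hS
  have hcol : ∀ c : Fin ζ × Fin b, ∑ ϱ : Fin n → Fin ζ → Bool,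
      ((sparseStack (s, ϱ))ᵀ *ᵥ tv i₀ K ϱ) c * ((sparseStack (s, ϱ))ᵀ *ᵥ tv i₀ K ϱ) c ≤
      S * (1 / (ζ * D ^ 2) * ∑ jd : Fin ζ × Fin D, if s (K jd) c.1 = c.2 then 1 else 0) := by
    intro c
    have h1 : ∀ ϱ : Fin n → Fin ζ → Bool,
        ((sparseStack (s, ϱ))ᵀ *ᵥ tv i₀ K ϱ) c * ((sparseStack (s, ϱ))ᵀ *ᵥ tv i₀ K ϱ) c =
        1 / (ζ * D ^ 2) * ∑ a : Fin ζ × Fin D, ∑ e : Fin ζ × Fin D,
          if (a.1 ≠ c.1 ∧ s (K a) c.1 = c.2) ∧ (e.1 ≠ c.1 ∧ s (K e) c.1 = c.2) then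
            tau i₀ K ϱ a c.1 * tau i₀ K ϱ e c.1 else 0 := by
      intro ϱ
      rw [mulVec_tv hD s ϱ i₀ K hs c]
      have h2 : ∀ X : ℝ, -(1 / (√(ζ : ℝ) * D)) * X * (-(1 / (√(ζ : ℝ) * D)) * X) =
          1 / (ζ * D ^ 2) * (X * X) := by
        intro X
        have : (√(ζ : ℝ)) ^ 2 = ζ := Real.sq_sqrt hζ'.le
        calc -(1 / (√(ζ : ℝ) * D)) * X * (-(1 / (√(ζ : ℝ) * D)) * X) =
            1 / ((√(ζ : ℝ)) ^ 2 * D ^ 2) * (X * X) := by ring
          _ = _ := by rw [this]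
      rw [h2, sum_mul_sum]
      congr 1
      exact sum_congr rfl fun a _ => sum_congr rfl fun e _ => ite_zero_mul_ite_zero _ _ _ _
    simp_rw [h1]
    rw [← mul_sum, sum_comm]
    have h3 : ∀ a : Fin ζ × Fin D, ∑ ϱ : Fin n → Fin ζ → Bool, ∑ e : Fin ζ × Fin D,
          (if (a.1 ≠ c.1 ∧ s (K a) c.1 = c.2) ∧ (e.1 ≠ c.1 ∧ s (K e) c.1 = c.2) then
            tau i₀ K ϱ a c.1 * tau i₀ K ϱ e c.1 else 0) ≤
          S * (if s (K a) c.1 = c.2 then 1 else 0) := by
      intro a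
      rw [sum_comm]
      by_cases ha : a.1 ≠ c.1 ∧ s (K a) c.1 = c.2
      · rw [if_pos ha.2, mul_one, sum_eq_single a]
        · rw [hS]
          simp only [ha, ne_eq, not_false_eq_true, and_self, if_true, tau_sq, sum_const, card_univ,
            nsmul_eq_mul, mul_one]
          exact le_rfl
        · intro e _ hea
          by_cases he : e.1 ≠ c.1 ∧ s (K e) c.1 = c.2
          · simp only [ha, he, ne_eq, not_false_eq_true, and_self, if_true]
            exact sum_tau i₀ K hK hi c.1 a e ha.1 (Ne.symm hea)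
          · refine sum_eq_zero fun ϱ _ => ?_
            rw [if_neg (fun h => he h.2)]
        · simp
      · have h4 : ∀ e : Fin ζ × Fin D, ∑ ϱ : Fin n → Fin ζ → Bool,
          (if (a.1 ≠ c.1 ∧ s (K a) c.1 = c.2) ∧ (e.1 ≠ c.1 ∧ s (K e) c.1 = c.2) then
            tau i₀ K ϱ a c.1 * tau i₀ K ϱ e c.1 else 0) = 0 := by
          intro e
          refine sum_eq_zero fun ϱ _ => ?_
          rw [if_neg (fun h => ha h.1)]
        rw [sum_congr rfl fun e _ => h4 e, sum_const_zero]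
        split_ifs
        · rw [hS]; positivity
        · simp
    calc 1 / (ζ * D ^ 2) * ∑ a : Fin ζ × Fin D, ∑ ϱ : Fin n → Fin ζ → Bool, ∑ e : Fin ζ × Fin D,
          (if (a.1 ≠ c.1 ∧ s (K a) c.1 = c.2) ∧ (e.1 ≠ c.1 ∧ s (K e) c.1 = c.2) then
            tau i₀ K ϱ a c.1 * tau i₀ K ϱ e c.1 else 0)
        ≤ 1 / (ζ * D ^ 2) * ∑ a : Fin ζ × Fin D, S * (if s (K a) c.1 = c.2 then 1 else 0) :=
          mul_le_mul_of_nonneg_left (sum_le_sum fun a _ => h3 a) (by positivity)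
      _ = S * (1 / (ζ * D ^ 2) * ∑ jd : Fin ζ × Fin D, if s (K jd) c.1 = c.2 then 1 else 0) := by
          rw [← mul_sum]; ring
  calc ∑ ϱ : Fin n → Fin ζ → Bool,
      ((sparseStack (s, ϱ))ᵀ *ᵥ tv i₀ K ϱ) ⬝ᵥ ((sparseStack (s, ϱ))ᵀ *ᵥ tv i₀ K ϱ)
      = ∑ c : Fin ζ × Fin b, ∑ ϱ : Fin n → Fin ζ → Bool,
        ((sparseStack (s, ϱ))ᵀ *ᵥ tv i₀ K ϱ) c * ((sparseStack (s, ϱ))ᵀ *ᵥ tv i₀ K ϱ) c := by
        simp only [dotProduct]
        rw [sum_comm]
    _ ≤ ∑ c : Fin ζ × Fin b,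
        S * (1 / (ζ * D ^ 2) * ∑ jd : Fin ζ × Fin D, if s (K jd) c.1 = c.2 then 1 else 0) :=
        sum_le_sum fun c _ => hcol c
    _ = S * (1 / (ζ * D ^ 2) * ∑ c : Fin ζ × Fin b, ∑ jd : Fin ζ × Fin D,
          if s (K jd) c.1 = c.2 then 1 else 0) := by
        rw [mul_sum, mul_sum]
    _ = S * (1 / (ζ * D ^ 2) * (ζ * (ζ * D))) := by
        congr 2
        rw [Fintype.sum_prod_type]
        have : ∀ j : Fin ζ, ∑ p : Fin b, ∑ jd : Fin ζ × Fin D,
            (if s (K jd) j = p then (1 : ℝ) else 0) = ζ * D := by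
          intro j
          rw [sum_comm]
          simp
        simp only [this]
        simp
    _ = S * ((ζ : ℝ) / D) := by
        field_simp

end Vector

/-! ### The coordinate subspace -/

section Assembly

variable {n ζ b r D g m : ℕ}

/-- Extension by zero from the first `r` coordinates. -/
def ext (n r : ℕ) : (Fin r → ℝ) →ₗ[ℝ] (Fin n → ℝ) where
  toFun x := fun l => if h : (l : ℕ) < r then x ⟨l, h⟩ else 0
  map_add' x y := by
    funext l
    simp only [Pi.add_apply]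
    split_ifs <;> simp
  map_smul' c x := by
    funext l
    simp only [Pi.smul_apply, RingHom.id_apply]
    split_ifs <;> simp

lemma ext_injective (hrn : r ≤ n) : Function.Injective (ext n r) := by
  intro x y h
  funext l
  have := congrFun h (Fin.castLE hrn l)
  simpa [ext] using this

/-- The coordinate subspace spanned by the first `r` coordinates. -/
def V₀ (n r : ℕ) : Submodule ℝ (Fin n → ℝ) := LinearMap.range (ext n r)

lemma finrank_V₀ (hrn : r ≤ n) : Module.finrank ℝ (V₀ n r) = r := by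
  unfold V₀
  rw [LinearMap.finrank_range_of_inj (ext_injective hrn)]
  simp

lemma mem_V₀ (hrn : r ≤ n) (x : Fin n → ℝ) (hx : ∀ l : Fin n, r ≤ (l : ℕ) → x l = 0) :
    x ∈ V₀ n r := by
  refine ⟨fun l => x (Fin.castLE hrn l), ?_⟩
  funext l
  change (if h : (l : ℕ) < r then x (Fin.castLE hrn ⟨l, h⟩) else 0) = x l
  split_ifs with h
  · rfl
  · exact (hx l (not_lt.mp h)).symm

lemma dotProduct_self_pos {ι : Type} [Fintype ι] (x : ι → ℝ) (hx : x ≠ 0) : 0 < x ⬝ᵥ x := by
  obtain ⟨i, hi⟩ := Function.ne_iff.mp hx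
  unfold dotProduct
  refine sum_pos' (fun j _ => mul_self_nonneg _) ⟨i, mem_univ _, ?_⟩
  exact mul_self_pos.mpr hi

/-- Too few columns: there is a kernel vector. -/
lemma not_osi_of_lt (hrn : r ≤ n) {α : ℝ} (hα : 0 < α) (h : b * ζ < r) :
    ¬ IsOSI n ζ b r α (1 / 100) := by
  intro hosi
  have h1 := hosi (V₀ n r) (finrank_V₀ hrn)
  have hempty : ∀ ω : StackData n ζ b, ¬ InjectiveOn ω (V₀ n r) α := by
    intro ω hinj
    let L : (V₀ n r) →ₗ[ℝ] (Fin ζ × Fin b → ℝ) :=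
      (Matrix.toLin' (sparseStack ω)ᵀ).comp (V₀ n r).subtype
    have hker : LinearMap.ker L ≠ ⊥ := by
      apply LinearMap.ker_ne_bot_of_finrank_lt
      rw [finrank_V₀ hrn]
      simpa [mul_comm] using h
    obtain ⟨x, hx, hx0⟩ := (Submodule.ne_bot_iff _).mp hker
    have h2 : (sparseStack ω)ᵀ *ᵥ (x : Fin n → ℝ) = 0 := hx
    have h3 := hinj x x.2
    rw [h2] at h3
    have h4 : 0 < (x : Fin n → ℝ) ⬝ᵥ (x : Fin n → ℝ) :=
      dotProduct_self_pos _ fun h => hx0 (Subtype.ext h)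
    have h5 := mul_pos hα h4
    simp only [dotProduct_zero] at h3
    linarith
  have h2 : Nat.card {ω : StackData n ζ b // InjectiveOn ω (V₀ n r) α} = 0 := by
    have : IsEmpty {ω : StackData n ζ b // InjectiveOn ω (V₀ n r) α} :=
      ⟨fun ω => hempty ω.1 ω.2⟩
    exact Nat.card_of_isEmpty
  rw [h2] at h1
  norm_num at h1

/-- If some candidate row is hit by all its helper groups, then injectivity fails for at least half
of all choices of the signs. -/
lemma card_signs (hrn : r ≤ n) (hD : 0 < D) (hζ : 0 < ζ) {α : ℝ} (hα : 0 < α)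
    (hDα : (ζ : ℝ) / D ≤ α / 2) (s : Fin n → Fin ζ → Fin b) (i₀ : Fin n)
    (K : Fin ζ × Fin D → Fin n) (hK : Function.Injective K) (hi : ∀ jd, K jd ≠ i₀)
    (hi0 : (i₀ : ℕ) < r) (hKr : ∀ jd, (K jd : ℕ) < r) (hs : ∀ jd, s (K jd) jd.1 = s i₀ jd.1) :
    (Nat.card {ϱ : Fin n → Fin ζ → Bool // InjectiveOn (s, ϱ) (V₀ n r) α} : ℝ) ≤
      Fintype.card (Fin n → Fin ζ → Bool) / 2 := by
  classical
  have h1 := sum_norm hD hζ s i₀ K hK hi hs
  have h2 : ∀ ϱ : Fin n → Fin ζ → Bool, (if InjectiveOn (s, ϱ) (V₀ n r) α then α else 0) ≤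
      ((sparseStack (s, ϱ))ᵀ *ᵥ tv i₀ K ϱ) ⬝ᵥ ((sparseStack (s, ϱ))ᵀ *ᵥ tv i₀ K ϱ) := by
    intro ϱ
    split_ifs with hinj
    · have hmem : tv i₀ K ϱ ∈ V₀ n r := by
        refine mem_V₀ hrn _ fun l hl => ?_
        unfold tv
        rw [if_neg (fun h => by rw [h] at hl; omega), sum_eq_zero, sub_zero]
        intro jd _
        rw [if_neg]
        intro h
        have := hKr jd
        rw [← h] at this
        omega
      have h3 := hinj _ hmem
      have h4 : (1 : ℝ) ≤ tv i₀ K ϱ ⬝ᵥ tv i₀ K ϱ := by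
        have h5 : tv i₀ K ϱ i₀ = 1 := by
          unfold tv
          rw [if_pos rfl, sum_eq_zero, sub_zero]
          intro jd _
          rw [if_neg (fun h => hi jd h.symm)]
        calc (1 : ℝ) = tv i₀ K ϱ i₀ * tv i₀ K ϱ i₀ := by rw [h5, mul_one]
          _ ≤ tv i₀ K ϱ ⬝ᵥ tv i₀ K ϱ :=
            single_le_sum (f := fun l => tv i₀ K ϱ l * tv i₀ K ϱ l)
              (fun l _ => mul_self_nonneg _) (mem_univ i₀)
      nlinarith
    · exact sum_nonneg fun c _ => mul_self_nonneg _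
  have h3 : (Nat.card {ϱ : Fin n → Fin ζ → Bool // InjectiveOn (s, ϱ) (V₀ n r) α} : ℝ) * α ≤
      Fintype.card (Fin n → Fin ζ → Bool) * ((ζ : ℝ) / D) := by
    refine le_trans (le_of_eq ?_) ((sum_le_sum fun ϱ _ => h2 ϱ).trans h1)
    rw [Nat.card_eq_fintype_card, Fintype.card_subtype, card_filter]
    push_cast
    rw [sum_mul]
    refine sum_congr rfl fun ϱ _ => ?_
    split_ifs <;> simp
  have h4 : (Fintype.card (Fin n → Fin ζ → Bool) : ℝ) * ((ζ : ℝ) / D) ≤
      Fintype.card (Fin n → Fin ζ → Bool) * (α / 2) :=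
    mul_le_mul_of_nonneg_left hDα (by positivity)
  have h5 := h3.trans h4
  nlinarith

/-- The proportion of positions without a candidate that is hit. -/
lemma card_positions (e : Fin m ⊕ ((Fin ζ × Fin D) × Fin g) → Fin n) (he : Function.Injective e)
    (hb : 0 < b) (hpos : 0 < hh b g ζ D) (hle : hh b g ζ D ≤ 1) :
    (Nat.card {s : Fin n → Fin ζ → Fin b // ∀ i : Fin m,
      ¬ Hit (fun jd k => s (e (Sum.inr (jd, k))) jd.1 : Helpers b g ζ D)
        (s (e (Sum.inl i)))} : ℝ) ≤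
    Nat.card (Fin n → Fin ζ → Fin b) *
      (4 * ζ / (b * hh b g ζ D ^ 2) + (1 - hh b g ζ D / 2) ^ m) := by
  classical
  let C' := ((Fin ζ × Fin D) × Fin g) ⊕ (Fin m × Fin ζ)
  let e' : C' → Fin n × Fin ζ := Sum.elim (fun x => (e (Sum.inr x), x.1.1))
    (fun x => (e (Sum.inl x.1), x.2))
  have he' : Function.Injective e' := by
    rintro (x | x) (y | y) h
    · simp only [e', Sum.elim_inl, Prod.mk.injEq] at h
      have := he h.1
      simp only [Sum.inr.injEq] at this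
      rw [this]
    · simp only [e', Sum.elim_inl, Sum.elim_inr, Prod.mk.injEq] at h
      exact absurd (he h.1) (by simp)
    · simp only [e', Sum.elim_inl, Sum.elim_inr, Prod.mk.injEq] at h
      exact absurd (he h.1) (by simp)
    · simp only [e', Sum.elim_inr, Prod.mk.injEq] at h
      have := he h.1
      simp only [Sum.inl.injEq] at this
      rw [show x = y from Prod.ext this h.2]
  let U : (C' → Fin b) → Prop := fun u => ∀ i : Fin m,
    ¬ Hit (fun jd k => u (Sum.inl (jd, k)) : Helpers b g ζ D) (fun j => u (Sum.inr (i, j)))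
  have h1 := card_restrict e' he' U
  have h2 : Nat.card {f : Fin n × Fin ζ → Fin b // U (f ∘ e')} =
      Nat.card {s : Fin n → Fin ζ → Fin b // ∀ i : Fin m,
      ¬ Hit (fun jd k => s (e (Sum.inr (jd, k))) jd.1 : Helpers b g ζ D)
        (s (e (Sum.inl i)))} := by
    refine Nat.card_congr ((Equiv.curry (Fin n) (Fin ζ) (Fin b)).subtypeEquiv fun f => ?_)
    rfl
  have h3 : Nat.card (Fin n × Fin ζ → Fin b) = Nat.card (Fin n → Fin ζ → Fin b) :=
    Nat.card_congr (Equiv.curry (Fin n) (Fin ζ) (Fin b))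
  let E : (C' → Fin b) ≃ Helpers b g ζ D × (Fin m → Fin ζ → Fin b) :=
    (Equiv.sumArrowEquivProdArrow _ _ _).trans
      (Equiv.prodCongr (Equiv.curry (Fin ζ × Fin D) (Fin g) (Fin b))
        (Equiv.curry (Fin m) (Fin ζ) (Fin b)))
  have h4 : Nat.card {u : C' → Fin b // U u} =
      Nat.card {wp : Helpers b g ζ D × (Fin m → Fin ζ → Fin b) //
        ∀ i, ¬ Hit wp.1 (wp.2 i)} := by
    refine Nat.card_congr (E.subtypeEquiv fun f => ?_)
    rfl
  have h5 : Nat.card (C' → Fin b) =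
      Nat.card (Helpers b g ζ D × (Fin m → Fin ζ → Fin b)) := Nat.card_congr E
  have h6 := card_no_hit (b := b) (g := g) (ζ := ζ) (D := D) (m := m) hb hpos hle
  have : Nonempty (Fin b) := ⟨⟨0, hb⟩⟩
  have hcpos : (0 : ℝ) < Nat.card (C' → Fin b) := by exact_mod_cast Nat.card_pos
  rw [← h2, ← h3]
  refine le_of_mul_le_mul_right ?_ hcpos
  rw [h1, h4, h5]
  have h7 : (Nat.card {wp : Helpers b g ζ D × (Fin m → Fin ζ → Fin b) //
        ∀ i, ¬ Hit wp.1 (wp.2 i)} : ℝ) ≤
      Nat.card (Helpers b g ζ D × (Fin m → Fin ζ → Fin b)) *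
      (4 * ζ / (b * hh b g ζ D ^ 2) + (1 - hh b g ζ D / 2) ^ m) := by
    rw [Nat.card_eq_fintype_card, Nat.card_eq_fintype_card, Fintype.card_subtype]
    exact h6
  calc _ ≤ (Nat.card (Helpers b g ζ D × (Fin m → Fin ζ → Fin b)) *
      (4 * ζ / (b * hh b g ζ D ^ 2) + (1 - hh b g ζ D / 2) ^ m)) *
        Nat.card (Fin n × Fin ζ → Fin b) := mul_le_mul_of_nonneg_right h7 (by positivity)
    _ = _ := by ring

/-- Main case: enough columns. -/
lemma not_osi_of_ge (hrn : r ≤ n) (hD : 0 < D) (hζ : 0 < ζ) (hb : 0 < b) {α : ℝ} (hα : 0 < α)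
    (hDα : (ζ : ℝ) / D ≤ α / 2) (hsize : m + ζ * D * g ≤ r)
    (hpos : 0 < hh b g ζ D) (hle : hh b g ζ D ≤ 1)
    (hbad : 4 * ζ / (b * hh b g ζ D ^ 2) + (1 - hh b g ζ D / 2) ^ m ≤ 1 / 4) :
    ¬ IsOSI n ζ b r α (1 / 100) := by
  classical
  intro hosi
  have h1 := hosi (V₀ n r) (finrank_V₀ hrn)
  have : Nonempty (Fin b) := ⟨⟨0, hb⟩⟩
  -- the rows
  obtain ⟨e₀⟩ : Nonempty ((Fin m ⊕ ((Fin ζ × Fin D) × Fin g)) ↪ Fin r) := by
    apply Function.Embedding.nonempty_of_card_le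
    simpa using hsize
  let e : Fin m ⊕ ((Fin ζ × Fin D) × Fin g) → Fin n := fun x => Fin.castLE hrn (e₀ x)
  have he : Function.Injective e := (Fin.castLE_injective hrn).comp e₀.injective
  have her : ∀ x, (e x : ℕ) < r := fun x => (e₀ x).2
  have h2 := card_positions (b := b) e he hb hpos hle
  set S := (Fintype.card (Fin n → Fin ζ → Bool) : ℝ) with hS
  have hSpos : 0 < S := by rw [hS]; exact_mod_cast Fintype.card_pos
  let good : (Fin n → Fin ζ → Fin b) → Prop := fun s => ∀ i : Fin m,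
      ¬ Hit (fun jd k => s (e (Sum.inr (jd, k))) jd.1 : Helpers b g ζ D) (s (e (Sum.inl i)))
  have h3 : ∀ s : Fin n → Fin ζ → Fin b,
      (Nat.card {ϱ : Fin n → Fin ζ → Bool // InjectiveOn (s, ϱ) (V₀ n r) α} : ℝ) ≤
      S * (if good s then 1 else 0) + S / 2 := by
    intro s
    by_cases hg : good s
    · rw [if_pos hg, mul_one]
      have : (Nat.card {ϱ : Fin n → Fin ζ → Bool // InjectiveOn (s, ϱ) (V₀ n r) α} : ℝ) ≤ S := by
        rw [hS, Nat.card_eq_fintype_card]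
        exact_mod_cast Fintype.card_subtype_le _
      linarith
    · rw [if_neg hg, mul_zero, zero_add]
      simp only [good, not_forall, not_not] at hg
      obtain ⟨i, hi⟩ := hg
      choose κ hκ using hi
      refine card_signs hrn hD hζ hα hDα s (e (Sum.inl i)) (fun jd => e (Sum.inr (jd, κ jd)))
        (fun x y h => ?_) (fun jd h => ?_) (her _) (fun jd => her _) hκ
      · have := he h
        simp only [Sum.inr.injEq, Prod.mk.injEq] at this
        exact this.1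
      · exact absurd (he h) (by simp)
  have h4 : (Nat.card {ω : StackData n ζ b // InjectiveOn ω (V₀ n r) α} : ℝ) =
      ∑ s : Fin n → Fin ζ → Fin b,
        (Nat.card {ϱ : Fin n → Fin ζ → Bool // InjectiveOn (s, ϱ) (V₀ n r) α} : ℝ) := by
    simp only [Nat.card_eq_fintype_card, Fintype.card_subtype, card_filter]
    push_cast
    rw [Fintype.sum_prod_type]
  have h5 : (Nat.card {s : Fin n → Fin ζ → Fin b // good s} : ℝ) =
      ∑ s : Fin n → Fin ζ → Fin b, if good s then (1 : ℝ) else 0 := by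
    rw [Nat.card_eq_fintype_card, Fintype.card_subtype, card_filter]
    push_cast
    rfl
  set P := (Nat.card (Fin n → Fin ζ → Fin b) : ℝ) with hP
  have hPpos : 0 < P := by rw [hP]; exact_mod_cast Nat.card_pos
  have h6 : (Nat.card {ω : StackData n ζ b // InjectiveOn ω (V₀ n r) α} : ℝ) ≤ 3 / 4 * (P * S) := by
    rw [h4]
    calc _ ≤ ∑ s : Fin n → Fin ζ → Fin b, (S * (if good s then (1 : ℝ) else 0) + S / 2) :=
          sum_le_sum fun s _ => h3 s
      _ = S * (Nat.card {s : Fin n → Fin ζ → Fin b // good s} : ℝ) + P * (S / 2) := by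
          rw [sum_add_distrib, ← mul_sum, ← h5, hP, Nat.card_eq_fintype_card]
          simp
      _ ≤ S * (P * (1 / 4)) + P * (S / 2) := by
          refine add_le_add (mul_le_mul_of_nonneg_left ?_ hSpos.le) le_rfl
          exact h2.trans (mul_le_mul_of_nonneg_left hbad hPpos.le)
      _ = 3 / 4 * (P * S) := by ring
  have h7 : (Nat.card (StackData n ζ b) : ℝ) = P * S := by
    rw [Nat.card_prod]
    push_cast
    rw [hP, hS, Nat.card_eq_fintype_card (α := Fin n → Fin ζ → Bool)]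
  rw [h7, le_div_iff₀ (mul_pos hPpos hSpos)] at h1
  nlinarith [mul_pos hPpos hSpos]

end Assembly

/-! ### The choice of the parameters -/

lemma pow_le_div (b g : ℕ) (hb : 0 < b) : (1 - 1 / (b : ℝ)) ^ g ≤ b / (b + g) := by
  have hb' : (1 : ℝ) ≤ b := by exact_mod_cast hb
  have hb0 : (0 : ℝ) < b := by linarith
  have h1 : 0 ≤ 1 - 1 / (b : ℝ) := by
    rw [sub_nonneg, div_le_one hb0]; exact hb'
  have h2 : 1 + (g : ℝ) * (1 / b) ≤ (1 + 1 / (b : ℝ)) ^ g :=
    one_add_mul_le_pow (by have : (0 : ℝ) ≤ 1 / b := by positivity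
                           linarith) g
  have h3 : (1 - 1 / (b : ℝ)) ^ g * (1 + 1 / (b : ℝ)) ^ g ≤ 1 := by
    rw [← mul_pow]
    refine pow_le_one₀ (mul_nonneg h1 (by positivity)) ?_
    have : (0 : ℝ) ≤ (1 / (b : ℝ)) ^ 2 := by positivity
    nlinarith
  have h4 : (b : ℝ) / (b + g) = 1 / (1 + g * (1 / b)) := by
    field_simp
  rw [h4, le_div_iff₀ (by positivity)]
  exact (mul_le_mul_of_nonneg_left h2 (pow_nonneg h1 _)).trans h3

lemma ratio_eq (b g : ℕ) (hb : 0 < b) : N1 b g / (b : ℝ) ^ g = 1 - (1 - 1 / (b : ℝ)) ^ g := by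
  have hb0 : (0 : ℝ) < b := by exact_mod_cast hb
  unfold N1
  rw [sub_div, div_self (by positivity), ← div_pow]
  congr 2
  field_simp

lemma err_one {ζ b r Z h h₀ : ℝ} (hζ : 1 ≤ ζ) (hζZ : ζ ≤ Z) (hb : 1 ≤ b) (hcase : r ≤ b * ζ)
    (hh₀ : 0 < h₀) (hle : h₀ ≤ h) (hr : 32 * Z ^ 2 / h₀ ^ 2 ≤ r) :
    4 * ζ / (b * h ^ 2) ≤ 1 / 8 := by
  have hZ1 : 1 ≤ Z := hζ.trans hζZ
  have hh : 0 < h := lt_of_lt_of_le hh₀ hle
  have h1 : h₀ ^ 2 ≤ h ^ 2 := pow_le_pow_left₀ hh₀.le hle 2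
  have h2 : 32 * Z ^ 2 ≤ r * h₀ ^ 2 := by
    rwa [← div_le_iff₀ (by positivity)]
  have h3 : r ≤ b * Z := hcase.trans (mul_le_mul_of_nonneg_left hζZ (by linarith))
  rw [div_le_iff₀ (by positivity)]
  have h4 : 32 * Z ^ 2 ≤ b * Z * h₀ ^ 2 := h2.trans (mul_le_mul_of_nonneg_right h3 (by positivity))
  have h5 : 32 * Z ≤ b * h₀ ^ 2 := by
    have : Z * (32 * Z) ≤ Z * (b * h₀ ^ 2) := by linarith
    exact le_of_mul_le_mul_left this (by linarith)
  have h6 : b * h₀ ^ 2 ≤ b * h ^ 2 := mul_le_mul_of_nonneg_left h1 (by linarith)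
  linarith

lemma err_two {h h₀ r : ℝ} {m : ℕ} (hh₀ : 0 < h₀) (hle : h₀ ≤ h) (h1 : h ≤ 1)
    (hr : 28 / h₀ + 1 ≤ r) (hm : r ≤ 2 * m + 1) : (1 - h / 2) ^ m ≤ 1 / 8 := by
  have hh : 0 < h := lt_of_lt_of_le hh₀ hle
  have hm0 : (0 : ℝ) ≤ m := Nat.cast_nonneg m
  have h3 : 0 ≤ 1 - h / 2 := by linarith
  have hB : (1 - h / 2) ^ m * (1 + m * (h / 2)) ≤ 1 := by
    have h2 : 1 + (m : ℝ) * (h / 2) ≤ (1 + h / 2) ^ m :=
      one_add_mul_le_pow (by linarith) m
    refine (mul_le_mul_of_nonneg_left h2 (pow_nonneg h3 _)).trans ?_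
    rw [← mul_pow]
    refine pow_le_one₀ (mul_nonneg h3 (by linarith)) ?_
    have : (1 - h / 2) * (1 + h / 2) = 1 - (h / 2) ^ 2 := by ring
    rw [this]
    have := sq_nonneg (h / 2)
    linarith
  have h5 : 28 ≤ (r - 1) * h₀ := by
    rw [← div_le_iff₀ hh₀]; linarith
  have h6 : (r - 1) * h₀ ≤ 2 * m * h := mul_le_mul (by linarith) hle hh₀.le (by positivity)
  have h4 : 7 ≤ (m : ℝ) * (h / 2) := by linarith
  have h7 : 0 ≤ (1 - h / 2) ^ m := pow_nonneg h3 _
  have h8 : (1 - h / 2) ^ m * 8 ≤ (1 - h / 2) ^ m * (1 + m * (h / 2)) :=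
    mul_le_mul_of_nonneg_left (by linarith) h7
  linarith

/-- For all constants `C₁`, `C₂` and `α > 0` there is `R` such that for every `r ≥ R` and every
`n ≥ r`, no SparseStack with `ζ ≤ C₁` blocks and `b ζ ≤ C₂ r` columns is an oblivious subspace
injection with parameter `α` for `r`-dimensional subspaces of `ℝⁿ`. -/
theorem result (C₁ C₂ α : ℝ) (hα : 0 < α) :
    ∃ R : ℕ, ∀ n ζ b r : ℕ, R ≤ r → r ≤ n → 1 ≤ ζ → 1 ≤ b → (ζ : ℝ) ≤ C₁ →
      ((b * ζ : ℕ) : ℝ) ≤ C₂ * r → ¬ IsOSI n ζ b r α (1 / 100) := by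
  set Z : ℕ := ⌈C₁⌉₊ with hZ
  set D : ℕ := ⌈2 * C₁ / α⌉₊ + 1 with hDdef
  set c : ℝ := max C₂ 1 with hc
  have hc1 : 1 ≤ c := le_max_right _ _
  set q₀ : ℝ := 1 / (1 + 4 * Z * c * D) with hq₀
  have hDpos : 0 < D := Nat.succ_pos _
  have hD' : (1 : ℝ) ≤ D := by exact_mod_cast hDpos
  have hZ0 : (0 : ℝ) ≤ Z := Nat.cast_nonneg _
  have hq₀pos : 0 < q₀ := by positivity
  have hq₀1 : q₀ ≤ 1 := by
    rw [hq₀, div_le_one (by positivity)]
    have : 0 ≤ 4 * (Z : ℝ) * c * D := by positivity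
    linarith
  set h₀ : ℝ := q₀ ^ (Z * D) with hh₀
  have hh₀pos : 0 < h₀ := by positivity
  refine ⟨⌈32 * (Z : ℝ) ^ 2 / h₀ ^ 2 + 28 / h₀ + 4 * Z * D + 2⌉₊, ?_⟩
  intro n ζ b r hR hrn hζ hb hζC hbζ
  have hR' : 32 * (Z : ℝ) ^ 2 / h₀ ^ 2 + 28 / h₀ + 4 * Z * D + 2 ≤ r := Nat.ceil_le.mp hR
  have hp1 : 0 ≤ 32 * (Z : ℝ) ^ 2 / h₀ ^ 2 := by positivity
  have hp2 : 0 ≤ 28 / h₀ := by positivity
  have hp3 : 0 ≤ 4 * (Z : ℝ) * D := by positivity
  have hr0 : (0 : ℝ) < r := by linarith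
  have hζZ : ζ ≤ Z := by
    have : (ζ : ℝ) ≤ Z := hζC.trans (Nat.le_ceil _)
    exact_mod_cast this
  have hζZ' : (ζ : ℝ) ≤ Z := by exact_mod_cast hζZ
  have hζ' : (1 : ℝ) ≤ ζ := by exact_mod_cast hζ
  have hb' : (1 : ℝ) ≤ b := by exact_mod_cast hb
  by_cases hcase : b * ζ < r
  · exact not_osi_of_lt hrn hα hcase
  rw [not_lt] at hcase
  have hcase' : (r : ℝ) ≤ b * ζ := by exact_mod_cast hcase
  -- number of rows in a group and number of candidates
  set g : ℕ := r / (2 * (ζ * D)) with hg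
  set m : ℕ := r / 2 with hm
  have hsize : m + ζ * D * g ≤ r := by
    have h1 : g * (2 * (ζ * D)) ≤ r := Nat.div_mul_le_self _ _
    have h2 : m * 2 ≤ r := Nat.div_mul_le_self _ _
    have h3 : 2 * (m + ζ * D * g) ≤ 2 * r := by nlinarith
    omega
  have hζD : (0 : ℝ) < ζ * D := by positivity
  have hg' : (r : ℝ) ≤ 4 * (ζ * D) * g := by
    have h1 : r < (g + 1) * (2 * (ζ * D)) := by
      have := Nat.lt_div_mul_add (a := r) (b := 2 * (ζ * D)) (by positivity)
      rw [add_mul, one_mul]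
      exact this
    have h1' : (r : ℝ) < (g + 1) * (2 * (ζ * D)) := by exact_mod_cast h1
    have h2 : 4 * (ζ * D : ℝ) ≤ r := by
      have : (ζ * D : ℝ) ≤ Z * D := mul_le_mul_of_nonneg_right hζZ' (by linarith)
      linarith
    nlinarith
  have hgpos : (0 : ℝ) < g := by
    by_contra hcon
    have hg0 : (g : ℝ) = 0 := le_antisymm (not_lt.mp hcon) (Nat.cast_nonneg _)
    rw [hg0, mul_zero] at hg'
    linarith
  have hbc : (b : ℝ) ≤ c * r := by
    have h1 : (b : ℝ) ≤ b * ζ := le_mul_of_one_le_right (by linarith) hζ'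
    have h2 : ((b : ℝ) * ζ) ≤ C₂ * r := by exact_mod_cast hbζ
    have h3 : C₂ * r ≤ c * r := mul_le_mul_of_nonneg_right (le_max_left _ _) hr0.le
    linarith
  have hratio : q₀ ≤ N1 b g / (b : ℝ) ^ g := by
    rw [ratio_eq b g hb]
    have h1 := pow_le_div b g hb
    have h2 : q₀ ≤ 1 - (b : ℝ) / (b + g) := by
      have h3 : 1 - (b : ℝ) / (b + g) = 1 / (1 + b / g) := by
        field_simp
        ring
      rw [h3, hq₀]
      refine one_div_le_one_div_of_le (by positivity) ?_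
      have h4 : (b : ℝ) / g ≤ 4 * Z * c * D := by
        rw [div_le_iff₀ hgpos]
        calc (b : ℝ) ≤ c * r := hbc
          _ ≤ c * (4 * (ζ * D) * g) := mul_le_mul_of_nonneg_left hg' (by linarith)
          _ ≤ c * (4 * (Z * D) * g) := by
              refine mul_le_mul_of_nonneg_left ?_ (by linarith)
              refine mul_le_mul_of_nonneg_right ?_ hgpos.le
              refine mul_le_mul_of_nonneg_left ?_ (by norm_num)
              exact mul_le_mul_of_nonneg_right hζZ' (by linarith)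
          _ = 4 * Z * c * D * g := by ring
      linarith
    linarith
  have hratio1 : N1 b g / (b : ℝ) ^ g ≤ 1 := by
    rw [ratio_eq b g hb]
    have : 0 ≤ (1 - 1 / (b : ℝ)) ^ g := by
      refine pow_nonneg ?_ g
      rw [sub_nonneg, div_le_one (by linarith)]
      exact hb'
    linarith
  have hh_ge : h₀ ≤ hh b g ζ D := by
    calc h₀ = q₀ ^ (Z * D) := hh₀
      _ ≤ q₀ ^ (ζ * D) := pow_le_pow_of_le_one hq₀pos.le hq₀1 (Nat.mul_le_mul_right _ hζZ)
      _ ≤ hh b g ζ D := pow_le_pow_left₀ hq₀pos.le hratio _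
  have hh_le : hh b g ζ D ≤ 1 := pow_le_one₀ (hq₀pos.le.trans hratio) hratio1
  have hh_pos : 0 < hh b g ζ D := lt_of_lt_of_le hh₀pos hh_ge
  have hDα : (ζ : ℝ) / D ≤ α / 2 := by
    rw [div_le_iff₀ (by linarith)]
    have h1 : 2 * C₁ / α ≤ D := by
      refine (Nat.le_ceil _).trans ?_
      rw [hDdef]; push_cast; linarith
    rw [div_le_iff₀ hα] at h1
    linarith
  refine not_osi_of_ge (D := D) (g := g) (m := m) hrn hDpos hζ hb hα hDα hsize hh_pos hh_le ?_
  -- the two error terms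
  have herr1 : 4 * (ζ : ℝ) / (b * hh b g ζ D ^ 2) ≤ 1 / 8 :=
    err_one hζ' hζZ' hb' hcase' hh₀pos hh_ge (by linarith)
  have hm' : (r : ℝ) ≤ 2 * m + 1 := by
    have : r ≤ 2 * m + 1 := by omega
    exact_mod_cast this
  have herr2 : (1 - hh b g ζ D / 2) ^ m ≤ 1 / 8 :=
    err_two hh₀pos hh_ge hh_le (by linarith) hm'
  linarith

end Pool.Agent.Results.MP_59a663_pr.NoConstantSparsity
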